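import Pool.Agent.H8.LC.A5
import Pool.Graph.R_seed8.Results.MP_7eacff_nt.RSumsAlmostAllRuns
import Pool.Graph.R_pool_sql_team_seeded_64922ed1.Results.MP_7eacff_nt.RegularBlocks

/-!
# Consecutive ordinates of zeta zeros are far from all linear recurrences

Assume the Riemann hypothesis and let `γ 1 ≤ γ 2 ≤ …` be the positive ordinates of the nontrivial
zeros of `ζ`, repeated according to multiplicity.  Linear independence would say in particular that
no relation `b_0 γ_n + … + b_k γ_{n+k} = 0` with rational coefficients holds between consecutive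
(distinct) ordinates.  Here it is proved that, for every `k`, almost every block of boundedly many
consecutive ordinates stays at a distance `≫ 1 / log γ_n` (the order of the mean gap) from every
real affine recurrence of order `k`, uniformly in the coefficients; hence a fixed relation
`b_0 γ_n + … + b_k γ_{n+k} = r`, with any real coefficients and any real `r`, fails for a positive
proportion `c = c(k)` of the `n`, again uniformly.

Idea of the proof.  In the limit of the contrary, a compactness argument gives a real sequence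
`(z_j)`, `j ∈ ℤ`, with `z_j = o(|j|)` which satisfies a linear recurrence with constant coefficients
and whose `r`-step increments exceed `√r - 3/20` at some points, for every `r`.  A solution of a
recurrence which is `o(|j|)` in both directions is a trigonometric polynomial, so bounded: a
contradiction.  The two inputs on the zeros are theorems of the starting files: almost all blocks
are regular, and the sums of `r` consecutive unfolded gaps exceed `r + √r - 3/20` in almost all
bounded runs.
-/

set_option autoImplicit false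

open Filter

namespace Pool.Agent.Results.MP_0ec205_nt.ConsecutiveOrdinates

/-- multiplicity of `s` as a zero of the Riemann zeta function (order of vanishing at `s`) -/
noncomputable def zmult (s : ℂ) : ℕ := analyticOrderNatAt riemannZeta s

/-- the number of nontrivial zeros of `ζ` with ordinate in `(0, t]`, with multiplicity -/
noncomputable def NZ (t : ℝ) : ℕ :=
  ∑ᶠ s ∈ {s : ℂ | riemannZeta s = 0 ∧ 0 < s.re ∧ s.re < 1 ∧ 0 < s.im ∧ s.im ≤ t}, zmult s

/-- for `n ≥ 1`: the `n`-th positive ordinate `γ n` of a nontrivial zero of `ζ`, the ordinates being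
listed in nondecreasing order and repeated according to multiplicity -/
noncomputable def γ (n : ℕ) : ℝ := sInf {t : ℝ | n ≤ NZ t}

lemma hyp (RH : RiemannHypothesis) : Pool.Agent.H8.LC.Hyp γ where
  mono := fun _ _ hn h => SG.ord_mono hn h
  top := SG.ord_tendsto
  reg := fun ε hε hε1 =>
    (Pool.Agent.Results.MP_7eacff_nt.RegularBlocks.result RH ε hε hε1).1
  runs := fun r hr => ((Pool.Agent.Results.MP_7eacff_nt.RSumsAlmostAllRuns.result RH).1 r hr).1

/-- **Consecutive ordinates are far from all linear recurrences.**  Assume the Riemann hypothesis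
and let `k ≥ 0`.
(1) For every `η > 0` there are `m ≥ 1` and `δ > 0` such that for all large `N` all but at most `η N`
of the `n ≤ N` have the following property: for every real `b_0, …, b_k` with `∑ |b_i| = 1` and every
real `r` there is `j < m` with `|b_0 γ_{n+j} + … + b_k γ_{n+j+k} - r| > δ / log γ_n`.
(2) There is `c > 0` such that for all large `N`, for every real `b_0, …, b_k`, not all zero, and
every real `r`, the relation `b_0 γ_n + … + b_k γ_{n+k} = r` holds for at most `(1 - c) N` of the
`n ≤ N`. -/
theorem result (RH : RiemannHypothesis) (k : ℕ) :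
    (∀ η : ℝ, 0 < η → ∃ (m : ℕ) (δ : ℝ), 1 ≤ m ∧ 0 < δ ∧ ∀ᶠ N : ℕ in atTop,
      ({n : ℕ | 1 ≤ n ∧ n ≤ N ∧ ¬ ∀ (b : Fin (k + 1) → ℝ) (r : ℝ), ∑ i, |b i| = 1 →
        ∃ j < m, δ < |∑ i, b i * γ (n + j + (i : ℕ)) - r| * Real.log (γ n)}.ncard : ℝ) ≤ η * N) ∧
    (∃ c : ℝ, 0 < c ∧ ∀ᶠ N : ℕ in atTop, ∀ (b : Fin (k + 1) → ℝ) (r : ℝ), b ≠ 0 →
      ({n : ℕ | 1 ≤ n ∧ n ≤ N ∧ ∑ i, b i * γ (n + (i : ℕ)) = r}.ncard : ℝ) ≤ (1 - c) * N) := by
  refine ⟨fun η hη => ?_, Pool.Agent.H8.LC.exact (hyp RH) k⟩
  obtain ⟨m, δ, hm, hδ, h⟩ := Pool.Agent.H8.LC.blocks (hyp RH) k η hη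
  refine ⟨m, δ, hm, hδ, ?_⟩
  filter_upwards [h] with N hN
  refine le_trans (le_of_eq ?_) hN
  congr 2
  ext n
  constructor
  · rintro ⟨h1, h2, h3⟩
    refine ⟨h1, h2, ?_⟩
    push Not at h3
    exact h3
  · rintro ⟨h1, h2, h3⟩
    refine ⟨h1, h2, ?_⟩
    push Not
    exact h3

end Pool.Agent.Results.MP_0ec205_nt.ConsecutiveOrdinates
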