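import Pool.Agent.H97.LI.Ind

/-!
# Simultaneous linear relations between the ordinates of the zeros of zeta

Assume the Riemann hypothesis.  Let `L_1, …, L_k` be real affine forms in `m` variables (the
index set is `ι` with any linear order) such that every `L_t` has a pair of variables `i t`, `j t`
which occur in `L_t` (with nonzero coefficients) but not both in the same earlier form `L_s`,
`s < t`.  Examples: all `k = m (m - 1) / 2` forms `r_{ij} x_i + s_{ij} x_j`, `i < j`, with nonzero
coefficients, for instance all sums of two of the variables; or `k = m - 1` forms in which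
`L_t` contains `x_{t+1}` and at least one other of the variables `x_1, …, x_{t+1}`, and no
others.

Let `A_1, …, A_m` be sets of positive ordinates up to `T` with at least `η T log T` elements (or
arbitrary sets of reals in `[-T, T]` of that size with at most `K log T` elements in every
half-open unit interval).  If `T` is large, then

* the proportion of the tuples `x` in `A_1 × ⋯ × A_m` for which all the numbers
  `L_1 (x), …, L_k (x)` are ordinates is at most `2 ^ (-k) + ε`;
* the proportion of the tuples `x` for which at least `(1/2 + δ) k` of the numbers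
  `L_1 (x), …, L_k (x)` are ordinates is at most `exp (-2 δ² k) + ε`, for every `δ ≥ 0`.

If the ordinates are linearly independent over `ℚ`, then for forms with rational coefficients,
constant term zero and at least two variables these proportions tend to `0`.  For one form (`k = 1`,
bound `1/2 + ε`) this is the theorem `RelationsHalf` of the library, whose main inequality (at
most half of the sums `a + b + c` are ordinates, `a` and `b` in dense sets, uniformly in the
shift `c`) is used here.  Proof: fix all variables but the private pair of the last form; the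
conditions coming from the other forms restrict the two remaining variables to a product set, and
of this product set the last form maps at most half (up to an error) to ordinates.  So the last
form costs a factor `1/2`.
-/

set_option autoImplicit false

open Finset

namespace Pool.Agent.Results.MP_0ec205_nt.SimultaneousRelations

/-- `1/2 + i t` is a zero of the Riemann zeta function -/
def IsZero (t : ℝ) : Prop := riemannZeta (1 / 2 + Complex.I * (t : ℂ)) = 0

/-- the value at `x` of the affine form with coefficients `r` and constant term `c` -/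
def form {m : ℕ} (r : Fin m → ℝ) (c : ℝ) (x : Fin m → ℝ) : ℝ := ∑ l, r l * x l + c

/-- `A` is a set of positive ordinates `≤ T`, or an arbitrary set of reals in `[-T, T]` with at
most `K log T` elements in every half-open unit interval -/
def Admissible (K T : ℝ) (A : Finset ℝ) : Prop :=
  (∀ γ ∈ A, 0 < γ ∧ γ ≤ T ∧ IsZero γ) ∨
  ((∀ a ∈ A, |a| ≤ T) ∧
    ∀ x : ℝ, ((A.filter (fun a => x ≤ a ∧ a < x + 1)).card : ℝ) ≤ K * Real.log T)

open Classical in
theorem result (hRH : RiemannHypothesis) {m : ℕ} {ι : Type} [Fintype ι] [LinearOrder ι]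
    (r : ι → Fin m → ℝ) (i j : ι → Fin m) (hij : ∀ t, i t ≠ j t)
    (hi : ∀ t, r t (i t) ≠ 0) (hj : ∀ t, r t (j t) ≠ 0)
    (hpriv : ∀ s t, s < t → r s (i t) = 0 ∨ r s (j t) = 0)
    (K η ε : ℝ) (hη : 0 < η) (hε : 0 < ε) :
    ∃ T1 : ℝ, ∀ T : ℝ, T1 ≤ T → ∀ c : ι → ℝ, (∀ t, |c t| ≤ K * T) →
      ∀ A : Fin m → Finset ℝ, (∀ l, Admissible K T (A l)) →
      (∀ l, η * T * Real.log T ≤ (A l).card) →
      (∀ S : Finset ι,
        (((Fintype.piFinset A).filter (fun x : Fin m → ℝ =>
          ∀ t ∈ S, IsZero (form (r t) (c t) x))).card : ℝ) ≤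
        ((1 / 2) ^ S.card + ε) * ∏ l, ((A l).card : ℝ)) ∧
      (∀ δ : ℝ, 0 ≤ δ →
        (((Fintype.piFinset A).filter (fun x : Fin m → ℝ => (1 / 2 + δ) * Fintype.card ι ≤
          ((univ.filter (fun t => IsZero (form (r t) (c t) x))).card : ℝ))).card : ℝ) ≤
        (Real.exp (-(2 * δ ^ 2 * Fintype.card ι)) + ε) * ∏ l, ((A l).card : ℝ)) := by
  obtain ⟨C, hC, hZ⟩ := Pool.Agent.H452R4.LI.zc
  set K' : ℝ := max K 0 + C with hK'
  have hK0 : 0 < K' := by
    have := le_max_right K 0
    linarith
  have hKK : K ≤ K' := by
    have := le_max_left K 0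
    linarith
  have hCK : C ≤ K' := by
    have := le_max_right K 0
    linarith
  set ε' : ℝ := ε * Real.exp (-(Fintype.card ι : ℝ)) with hε'
  have hε'0 : 0 < ε' := by positivity
  have hε'1 : ε' ≤ ε := by
    rw [hε']
    have : Real.exp (-(Fintype.card ι : ℝ)) ≤ 1 := by
      apply Real.exp_le_one_iff.mpr
      have : (0 : ℝ) ≤ Fintype.card ι := Nat.cast_nonneg _
      linarith
    nlinarith
  have hsys := fun S : Finset ι =>
    H97.LI.sys hRH r i j hij hi hj hpriv K' η hK0 hη S ε' hε'0
  choose T1 hT1 using hsys
  refine ⟨max 3 (∑ S : Finset ι, |T1 S|), ?_⟩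
  intro T hT c hc A hA hcard
  have hT3 : 3 ≤ T := (le_max_left _ _).trans hT
  have hT0 : 0 < T := by linarith
  have hlog : 0 < Real.log T := Real.log_pos (by linarith)
  have hTS : ∀ S, T1 S ≤ T := fun S =>
    (le_abs_self _).trans ((single_le_sum (f := fun S : Finset ι => |T1 S|)
      (fun _ _ => abs_nonneg _) (mem_univ S)).trans ((le_max_right _ _).trans hT))
  have hc' : ∀ t, |c t| ≤ K' * T := fun t => (hc t).trans (by nlinarith)
  have hA1 : ∀ l, ∀ a ∈ A l, |a| ≤ T := by
    intro l a ha
    rcases hA l with h | h
    · have := h a ha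
      rw [abs_of_pos this.1]; exact this.2.1
    · exact h.1 a ha
  have hA2 : ∀ l, Pool.Agent.H452R4.LI.dens (A l) (K' * Real.log T) := by
    intro l
    rcases hA l with h | h
    · exact Pool.Agent.H452R4.LI.CORaux.dens_mono (hZ T (A l) hT3 h) (by nlinarith)
    · exact Pool.Agent.H452R4.LI.CORaux.dens_mono h.2 (by nlinarith)
  have hcard' : ∀ l, η * (T * Real.log T) ≤ (A l).card := fun l => by
    rw [← mul_assoc]; exact hcard l
  have hP : (0 : ℝ) ≤ ∏ l, ((A l).card : ℝ) := prod_nonneg (fun _ _ => Nat.cast_nonneg _)
  have key : ∀ S : Finset ι, (((Fintype.piFinset A).filter (fun x : Fin m → ℝ =>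
          ∀ t ∈ S, IsZero (form (r t) (c t) x))).card : ℝ) ≤
        ((1 / 2) ^ S.card + ε') * ∏ l, ((A l).card : ℝ) := by
    intro S
    have h := hT1 S T (hTS S) c hc' A hA1 hA2 hcard'
    refine le_trans (le_of_eq ?_) h
    congr 2
    ext x
    simp only [mem_filter]
    exact Iff.rfl
  refine ⟨fun S => (key S).trans ?_, fun δ hδ => ?_⟩
  · exact mul_le_mul_of_nonneg_right (by linarith) hP
  · have hF : ((Fintype.piFinset A).card : ℝ) ≤ ∏ l, ((A l).card : ℝ) := by
      rw [Fintype.card_piFinset]
      push_cast
      exact le_rfl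
    have h := H97.LI.deviation (Fintype.piFinset A)
      (fun t x => IsZero (form (r t) (c t) x)) (∏ l, ((A l).card : ℝ)) ε hF hε.le
      (fun S => by
        refine le_trans (le_of_eq ?_) (key S)
        congr 2
        ext x
        simp only [mem_filter]) δ hδ
    refine le_trans (le_of_eq ?_) h
    congr 2

end Pool.Agent.Results.MP_0ec205_nt.SimultaneousRelations
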