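import Pool.Agent.H8.LI.SHI

/-! Assume RH.

(1) Let `A`, `B` be finite sets of real numbers in `[-T, T]` with at most `u`, respectively `v`,
elements in every half-open unit interval, and `|A|² |B| ≥ u² v T^(2 + δ)`.  Then the sum over
`a ∈ A`, `b ∈ B` of the multiplicity of `1/2 + i (a + b)` as a zero of zeta is at most
`(log T / log (|A| |B| / (u v)) + ε) |A| |B|`.

(2) Let `H` be a finite set of real numbers in `[-T, T]` with at most `v` elements in every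
half-open unit interval and `|H| ≥ v T^δ`.  On average over `h ∈ H`, at most a proportion
`1 / (1 + δ) + ε` of the positive ordinates `γ ≤ T` are such that `γ + h` is an ordinate. -/

set_option autoImplicit false

namespace Pool.Agent.Results.MP_0ec205_nt.SparseSumsets

theorem result (hRH : RiemannHypothesis) (δ ε : ℝ) (hδ : 0 < δ) (hε : 0 < ε) :
    (∃ T₀ : ℝ, ∀ T : ℝ, T₀ ≤ T → ∀ (A B : Finset ℝ) (u v : ℝ), 0 < u → 0 < v →
      (∀ a ∈ A, |a| ≤ T) → (∀ b ∈ B, |b| ≤ T) →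
      (∀ x : ℝ, ((A.filter (fun a => x ≤ a ∧ a < x + 1)).card : ℝ) ≤ u) →
      (∀ x : ℝ, ((B.filter (fun b => x ≤ b ∧ b < x + 1)).card : ℝ) ≤ v) →
      u ^ 2 * v * T ^ (2 + δ) ≤ (A.card : ℝ) ^ 2 * B.card →
      ∑ a ∈ A, ∑ b ∈ B,
          (analyticOrderNatAt riemannZeta (1 / 2 + ((a + b : ℝ) : ℂ) * Complex.I) : ℝ) ≤
        (Real.log T / Real.log ((A.card : ℝ) * B.card / (u * v)) + ε) *
          ((A.card : ℝ) * B.card)) ∧
    (∃ T₀ : ℝ, ∀ T : ℝ, T₀ ≤ T → ∀ (H : Finset ℝ) (v : ℝ), 0 < v →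
      (∀ h ∈ H, |h| ≤ T) →
      (∀ x : ℝ, ((H.filter (fun h => x ≤ h ∧ h < x + 1)).card : ℝ) ≤ v) →
      v * T ^ δ ≤ H.card →
      ∑ h ∈ H, ({γ : ℝ | 0 < γ ∧ γ ≤ T ∧ riemannZeta (1 / 2 + (γ : ℂ) * Complex.I) = 0 ∧
          riemannZeta (1 / 2 + ((γ + h : ℝ) : ℂ) * Complex.I) = 0}.ncard : ℝ) ≤
        (1 / (1 + δ) + ε) *
          (({γ : ℝ | 0 < γ ∧ γ ≤ T ∧ riemannZeta (1 / 2 + (γ : ℂ) * Complex.I) = 0}.ncard : ℝ) *
            H.card)) := by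
  have hRHs : Pool.Agent.H452R4.LI.RH0 := by
    intro s h0 h1 hz
    refine hRH s hz ?_ ?_
    · rintro ⟨n, hn⟩
      rw [hn] at h0
      simp at h0
      have : (0 : ℝ) ≤ n := n.cast_nonneg
      linarith
    · rintro rfl
      simp at h1
  constructor
  · obtain ⟨T1, -, h⟩ := Pool.Agent.H8.LI.gen2 hRHs δ ε hδ hε
    refine ⟨T1, fun T hT A B u v hu hv hA hB hdA hdB hX => ?_⟩
    have h1 := h T hT A B u v hA hB hdA hdB hu hv hX
    refine le_trans (le_of_eq ?_) h1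
    refine Finset.sum_congr rfl fun a _ => Finset.sum_congr rfl fun b _ => ?_
    unfold Pool.Agent.H345R2.AP.mz
    rw [mul_comm]
  · obtain ⟨T1, h⟩ := Pool.Agent.H8.LI.shifts hRHs δ ε hδ hε
    refine ⟨T1, fun T hT H v hv hH hdH hHc => ?_⟩
    have h1 := h T hT H v hv hH hdH hHc
    have e1 : {γ : ℝ | 0 < γ ∧ γ ≤ T ∧ riemannZeta (1 / 2 + (γ : ℂ) * Complex.I) = 0} =
        Pool.Agent.TH352.SU.OS T := by
      ext γ
      show (0 < γ ∧ γ ≤ T ∧ riemannZeta (1 / 2 + (γ : ℂ) * Complex.I) = 0) ↔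
        (0 < γ ∧ γ ≤ T ∧ riemannZeta (1 / 2 + Complex.I * (γ : ℂ)) = 0)
      rw [mul_comm]
    rw [e1]
    refine le_trans (le_of_eq ?_) h1
    refine Finset.sum_congr rfl fun h _ => ?_
    congr 2
    ext γ
    show (0 < γ ∧ γ ≤ T ∧ riemannZeta (1 / 2 + (γ : ℂ) * Complex.I) = 0 ∧
          riemannZeta (1 / 2 + ((γ + h : ℝ) : ℂ) * Complex.I) = 0) ↔
        ((0 < γ ∧ γ ≤ T ∧ riemannZeta (1 / 2 + Complex.I * (γ : ℂ)) = 0) ∧
          riemannZeta (1 / 2 + Complex.I * ((γ + h : ℝ) : ℂ)) = 0)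
    rw [mul_comm (γ : ℂ), mul_comm (((γ + h : ℝ) : ℂ))]
    tauto

end Pool.Agent.Results.MP_0ec205_nt.SparseSumsets
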