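import Pool.Agent.H8.TT.Z8

/-! Assume RH.  Let `s > 1` be a real number with `3 s² - 5 s + 1 < 0`, that is
`1 < s < (5 + √13) / 6 = 1.434...`, and let `r` be a real number.  There is `c > 0` such that for
all large `T` the number of positive ordinates `γ ≤ T` for which `s γ + r` is an ordinate is at most
`(1 - c) N(T)`, where `N(T)` is the number of zeros with imaginary part in `(0, T]`, counted with
multiplicity. -/

set_option autoImplicit false

namespace Pool.Agent.Results.MP_0ec205_nt.TwoTermRelations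

theorem result (hRH : RiemannHypothesis) (s r : ℝ) (hs : 1 < s) (hs2 : 3 * s ^ 2 - 5 * s + 1 < 0) :
    ∃ c : ℝ, 0 < c ∧ ∃ T₀ : ℝ, ∀ T : ℝ, T₀ ≤ T →
      ({γ : ℝ | 0 < γ ∧ γ ≤ T ∧ riemannZeta (1 / 2 + (γ : ℂ) * Complex.I) = 0 ∧
          riemannZeta (1 / 2 + ((s * γ + r : ℝ) : ℂ) * Complex.I) = 0}.ncard : ℝ) ≤
        (1 - c) * ((∑ᶠ ρ ∈ {ρ : ℂ | riemannZeta ρ = 0 ∧ 0 < ρ.re ∧ ρ.re < 1 ∧ 0 < ρ.im ∧ ρ.im ≤ T},
          analyticOrderNatAt riemannZeta ρ : ℕ) : ℝ) :=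
  Pool.Agent.H8.TT.z8 hRH s r (Pool.Agent.H8.TT.z7 hRH s r hs (by linarith))

end Pool.Agent.Results.MP_0ec205_nt.TwoTermRelations
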